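import Pool.Agent.P.MP_5e916a_al.DL.Main

namespace Pool.Agent.Results.MP_5e916a_al.ClassBound

/-- The nilpotency class of a finite nilpotent group is bounded in terms of `|Cod G|` alone, where
`Cod G` is the set of the numbers `|G : ker χ| / χ(1)` for the irreducible complex characters
`χ`. -/
theorem result : ∀ k : ℕ, ∃ c : ℕ, ∀ (G : Type) [Group G] [Finite G] [Group.IsNilpotent G],
    Set.ncard {x : ℝ | ∃ V : FDRep ℂ G, CategoryTheory.Simple V ∧
      x = (Nat.card G : ℝ) / Nat.card {g : G // V.character g = V.character 1} /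
        Module.finrank ℂ V} ≤ k → Group.nilpotencyClass G ≤ c :=
  Pool.Agent.P.MP_5e916a_al.DL.final

end Pool.Agent.Results.MP_5e916a_al.ClassBound
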