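import Pool.Agent.P.MP_5e916a_al.A.Fin

namespace Pool.Agent.Results.MP_5e916a_al.Linear

/-- The derived length of a finite solvable group is at most `2376 (|Cod G| - 1)`, where `Cod G`
is the set of the numbers `|G : ker χ| / χ(1)` for the irreducible complex characters `χ`. -/
theorem result : ∀ (G : Type) [Group G] [Finite G] [Group.IsSolvable G],
    derivedSeries G (2376 * (Set.ncard {x : ℝ | ∃ V : FDRep ℂ G, CategoryTheory.Simple V ∧
      x = (Nat.card G : ℝ) / Nat.card {g : G // V.character g = V.character 1} /
        Module.finrank ℂ V} - 1)) = ⊥ :=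
  fun G _ _ _ => Pool.Agent.P.MP_5e916a_al.final G (c := 18) (by norm_num)
    (Pool.Agent.P.MP_5e916a_al.big_solvable G)

end Pool.Agent.Results.MP_5e916a_al.Linear
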